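import Pool.Agent.H743.X17.IsoAll
import Pool.Agent.H743.X17.VCNT

/-!
# The quartics of the descent by 2-isogeny for the twists of the curves of conductor 17
-/

set_option autoImplicit false
set_option linter.all false

open scoped Classical

namespace Pool.Agent.H743.SQ

open Pool.Agent.H743.X17

/-- the quartic `N² = u M⁴ + a M² e² + (b / u) e⁴` has a point over `K` -/
def QS (K : Type) [Field K] (a b u : K) : Prop :=
  ∃ N M e : K, (M ≠ 0 ∨ e ≠ 0) ∧ N ^ 2 = u * M ^ 4 + a * M ^ 2 * e ^ 2 + b / u * e ^ 4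

theorem scale {K : Type} [Field K] {a b u k : K} (hk : k ≠ 0) :
    QS K (a * k ^ 2) (b * k ^ 4) u ↔ QS K a b u := by
  constructor
  · rintro ⟨N, M, e, h, hq⟩
    refine ⟨N, M, k * e, ?_, ?_⟩
    · rcases h with h | h
      · exact Or.inl h
      · exact Or.inr (mul_ne_zero hk h)
    · rw [hq]; ring
  · rintro ⟨N, M, e, h, hq⟩
    refine ⟨N, M, e / k, ?_, ?_⟩
    · rcases h with h | h
      · exact Or.inl h
      · exact Or.inr (div_ne_zero h hk)
    · rw [hq]
      have h2 : k ^ 2 * (e / k) ^ 2 = e ^ 2 := by field_simp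
      have h4 : k ^ 4 * (e / k) ^ 4 = e ^ 4 := by field_simp
      linear_combination (-a * M ^ 2) * h2 - (b / u) * h4

theorem qs_lu {K : Type} [Field K] [CharZero K] {A B u : ℤ} (hA : A ≠ 0) (hB : B ≠ 0)
    (hu : u ≠ 0) : QS K ((A : K) + B) ((A : K) * B) (u : K) ↔ LU A B u K := by
  have hA' : (A : K) ≠ 0 := by exact_mod_cast hA
  have hB' : (B : K) ≠ 0 := by exact_mod_cast hB
  have hu' : (u : K) ≠ 0 := by exact_mod_cast hu
  constructor
  · rintro ⟨N, M, e, h, hq⟩
    by_cases he : e = 0
    · have hM : M ≠ 0 := by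
        rcases h with h | h
        · exact h
        · exact absurd he h
      left
      refine ⟨N / M ^ 2, ?_⟩
      rw [he] at hq
      have : N * N = u * M ^ 4 := by linear_combination hq
      rw [div_mul_div_comm, this]
      field_simp
    by_cases hM : M = 0
    · right; left
      refine ⟨N * u / e ^ 2, ?_⟩
      rw [hM] at hq
      have h1 : N * N * u = A * B * e ^ 4 := by
        have : (A : K) * B / u * u = A * B := by field_simp
        linear_combination u * hq + e ^ 4 * this
      push_cast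
      rw [div_mul_div_comm]
      have h2 : N * u * (N * u) = A * B * e ^ 4 * u := by linear_combination u * h1
      rw [h2]
      field_simp
    · right; right
      refine ⟨u * M ^ 2 / e ^ 2, u * N * M / e ^ 3, div_ne_zero (mul_ne_zero hu' (pow_ne_zero 2 hM))
        (pow_ne_zero 2 he), ?_, ⟨u * M / e, ?_⟩⟩
      · rw [div_pow, mul_pow, mul_pow, hq]
        field_simp
        ring
      · field_simp
  · rintro (⟨s, hs⟩ | ⟨s, hs⟩ | ⟨x, y, hx, hxy, ⟨t, ht⟩⟩)
    · refine ⟨s, 1, 0, Or.inl one_ne_zero, ?_⟩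
      rw [sq, ← hs]; ring
    · refine ⟨s / u, 0, 1, Or.inr one_ne_zero, ?_⟩
      push_cast at hs
      have : (s / u) ^ 2 = s * s / u ^ 2 := by rw [div_pow, sq s]
      rw [this, ← hs]
      field_simp
      ring
    · have ht0 : t ≠ 0 := by
        rintro rfl
        rw [mul_zero] at ht
        exact (mul_ne_zero hx hu') ht
      refine ⟨y / t, t / u, 1, Or.inr one_ne_zero, ?_⟩
      have ht2 : t ^ 2 = x * u := by rw [sq, ht]
      have e1 : (y / t) ^ 2 = (x + A) * (x + B) / u := by
        rw [div_pow, ht2, hxy]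
        field_simp
      have e2 : (t / u : K) ^ 2 = x / u := by
        rw [div_pow, ht2]; field_simp
      have e4 : (t / u : K) ^ 4 = x ^ 2 / u ^ 2 := by
        have : (t / u : K) ^ 4 = ((t / u : K) ^ 2) ^ 2 := by ring
        rw [this, e2, div_pow]
      rw [e1, e2, e4]
      field_simp
      ring

theorem qs_ls {K : Type} [Field K] [CharZero K] {A B u : ℤ} (hA : A ≠ 0) (hB : B ≠ 0)
    (hAB : A ≠ B) (hu : u ≠ 0) (h1 : LS A B 1 1 K)
    (h : QS K (-2 * ((A : K) + B)) (((A : K) - B) ^ 2) (u : K)) : LS A B 1 u K := by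
  have hA' : (A : K) ≠ 0 := by exact_mod_cast hA
  have hB' : (B : K) ≠ 0 := by exact_mod_cast hB
  have hu' : (u : K) ≠ 0 := by exact_mod_cast hu
  have hAB' : (A : K) - B ≠ 0 := by
    rw [sub_ne_zero]
    exact_mod_cast hAB
  have hsq : IsSquare (u : K) → LS A B 1 u K := by
    intro hs
    refine LS.congr (u := 1) (v := 1) (by simp) (by simp) (by simp) ?_ h1
    rw [one_mul]
    exact hs
  obtain ⟨N, M, e, hne, hq⟩ := h
  by_cases he : e = 0
  · have hM : M ≠ 0 := by
      rcases hne with h | h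
      · exact h
      · exact absurd he h
    apply hsq
    refine ⟨N / M ^ 2, ?_⟩
    rw [he] at hq
    have : N * N = u * M ^ 4 := by linear_combination hq
    rw [div_mul_div_comm, this]
    field_simp
  by_cases hM : M = 0
  · apply hsq
    rw [hM] at hq
    have h2 : u * N ^ 2 = ((A : K) - B) ^ 2 * e ^ 4 := by
      have : ((A : K) - B) ^ 2 / u * u = (A - B) ^ 2 := by field_simp
      linear_combination u * hq + e ^ 4 * this
    have hN : N ≠ 0 := by
      rintro rfl
      have : ((A : K) - B) ^ 2 * e ^ 4 ≠ 0 := mul_ne_zero (pow_ne_zero 2 hAB') (pow_ne_zero 4 he)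
      apply this
      rw [← h2]; ring
    refine ⟨(A - B) * e ^ 2 / N, ?_⟩
    rw [div_mul_div_comm, eq_div_iff (mul_ne_zero hN hN)]
    linear_combination h2
  -- the general case
  set X : K := u * M ^ 2 / e ^ 2 with hX
  set Y : K := u * N * M / e ^ 3 with hY
  set r : K := u * M / e with hr
  have hX0 : X ≠ 0 := div_ne_zero (mul_ne_zero hu' (pow_ne_zero 2 hM)) (pow_ne_zero 2 he)
  have hXu : X * u = r * r := by rw [hX, hr]; field_simp
  have hc : Y ^ 2 = X * (X ^ 2 - 2 * (A + B) * X + (A - B) ^ 2) := by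
    rw [hX, hY, div_pow, mul_pow, mul_pow, hq]
    field_simp
    ring
  clear_value X Y r
  by_cases hY0 : Y = 0
  · rw [hY0] at hc
    have h3 : X ^ 2 - 2 * (A + B) * X + ((A : K) - B) ^ 2 = 0 := by
      have : X * (X ^ 2 - 2 * (A + B) * X + ((A : K) - B) ^ 2) = 0 := by rw [← hc]; ring
      rcases mul_eq_zero.1 this with h | h
      · exact absurd h hX0
      · exact h
    set s : K := (X - A - B) / 2 with hs
    have hs2 : s * s = A * B := by
      rw [hs]
      linear_combination (1 / 4) * h3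
    have h4 : (A : K) * X = (A + s) * (A + s) := by
      have : X = 2 * s + A + B := by rw [hs]; ring
      rw [this]
      linear_combination -hs2
    refine LS.congr (u := A * B * 1) (v := A * 1) ?_ ?_ ⟨s, ?_⟩ ⟨(A + s) * r / X, ?_⟩
      (LS.shiftA hA' hB' h1)
    · push_cast
      rw [mul_one]
      exact mul_ne_zero hA' hB'
    · push_cast
      rw [mul_one]
      exact hA'
    · push_cast
      rw [hs2]; ring
    · push_cast
      rw [div_mul_div_comm, eq_div_iff (mul_ne_zero hX0 hX0)]
      linear_combination (X * u) * h4 + ((A : K) + s) ^ 2 * hXu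
  have h2X : (2 * X : K) * (2 * X) ≠ 0 :=
    mul_ne_zero (mul_ne_zero two_ne_zero hX0) (mul_ne_zero two_ne_zero hX0)
  by_cases h5 : X = A - B
  · have h6 : (Y / (2 * X)) * (Y / (2 * X)) = -B := by
      rw [div_mul_div_comm, div_eq_iff h2X, ← sq Y, hc, h5]
      ring
    refine LS.congr (u := -B * 1) (v := (A - B) * 1) ?_ ?_ ⟨Y / (2 * X), ?_⟩ ⟨r, ?_⟩
      (LS.shiftC hB' hAB' h1)
    · push_cast
      rw [mul_one]
      exact neg_ne_zero.2 hB'
    · push_cast
      rw [mul_one]
      exact hAB'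
    · push_cast
      rw [h6]; ring
    · push_cast
      rw [← hXu, h5]; ring
  by_cases h7 : X = B - A
  · have h6 : (Y / (2 * X)) * (Y / (2 * X)) = -A := by
      rw [div_mul_div_comm, div_eq_iff h2X, ← sq Y, hc, h7]
      ring
    refine LS.congr (u := -A * 1) (v := A * (A - B) * 1) ?_ ?_ ⟨Y / (2 * X), ?_⟩
      ⟨Y / (2 * X) * r, ?_⟩ (LS.shiftB hA' hAB' h1)
    · push_cast
      rw [mul_one]
      exact neg_ne_zero.2 hA'
    · push_cast
      rw [mul_one]
      exact mul_ne_zero hA' hAB'
    · push_cast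
      rw [h6]; ring
    · have e1 : Y / (2 * X) * r * (Y / (2 * X) * r) = (Y / (2 * X) * (Y / (2 * X))) * (r * r) := by
        ring
      rw [e1, h6, ← hXu, h7]
      push_cast
      ring
  -- the image of the point under the dual isogeny
  have h8 : X + A - B ≠ 0 := fun h => h7 (by linear_combination h)
  have h9 : X - (A - B) ≠ 0 := fun h => h5 (by linear_combination h)
  have eA : Y ^ 2 / (4 * X ^ 2) + A = (X + A - B) ^ 2 / (4 * X) := by
    rw [hc]
    field_simp
    ring
  have eB : Y ^ 2 / (4 * X ^ 2) + B = (X - (A - B)) ^ 2 / (4 * X) := by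
    rw [hc]
    field_simp
    ring
  refine ⟨Y ^ 2 / (4 * X ^ 2), Y * (X + A - B) * (X - (A - B)) / (8 * X ^ 2), ?_, ?_,
    ⟨Y / (2 * X), ?_⟩, ⟨(X + A - B) * r / (2 * X), ?_⟩⟩
  · refine div_ne_zero (mul_ne_zero (mul_ne_zero hY0 h8) h9) (mul_ne_zero (by norm_num) (pow_ne_zero 2 hX0))
  · rw [eA, eB]
    field_simp
    ring
  · push_cast
    field_simp
    ring
  · rw [eA]
    have e1 : (X + A - B) * r / (2 * X) * ((X + A - B) * r / (2 * X)) =
        (X + A - B) ^ 2 * (r * r) / (4 * X ^ 2) := by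
      rw [div_mul_div_comm]
      congr 1 <;> ring
    rw [e1, ← hXu]
    field_simp

end Pool.Agent.H743.SQ
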