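import Pool.Agent.H743.SQ.A
import Pool.Agent.H743.X17.Fin
import Pool.Agent.H743.X17.PARITY
import Pool.Agent.H743.X17.SYSF

/-!
# The two Selmer sets of the twists of the curves of conductor 17
-/

set_option autoImplicit false
set_option linter.all false

open scoped Classical

namespace Pool.Agent.H743.SQ

open Pool.Agent.H743.X17

/-! ### the trivial one -/

theorem sqZ {c u s n : ℤ} (hc : Squarefree c) (hu : Squarefree u) (hs : s ≠ 0)
    (hn : n = c * s ^ 2 * u) (h : IsSquare n) : u = c := by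
  refine (QVCNT.sqlem hc hu hs).1 ?_
  rw [← hn]
  exact Rat.isSquare_intCast_iff.2 h

theorem sf_neg_one : Squarefree (-1 : ℤ) := by
  rw [← Int.squarefree_natAbs]
  simp

theorem sf17 : Squarefree (17 : ℤ) := by
  rw [← Int.squarefree_natAbs]
  exact (by norm_num : Nat.Prime 17).prime.squarefree

theorem sfn17 : Squarefree (-17 : ℤ) := by
  rw [← Int.squarefree_natAbs]
  exact (by norm_num : Nat.Prime 17).prime.squarefree

/-- the three translations -/
theorem conv0 {K : Type} [Field K] {m u : ℤ} (h : LS (pA 0 m) (pB 0 m) 1 u K) :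
    LS m (-16 * m) 1 u K := h

theorem conv1 {K : Type} [Field K] {m u : ℤ} (h : LS (pA 1 m) (pB 1 m) 1 u K) :
    LS m (-16 * m) u 1 K := by
  obtain ⟨x, y, hy, hxy, hs, ht⟩ := h
  change y ^ 2 = x * (x + ((-m : ℤ) : K)) * (x + ((-17 * m : ℤ) : K)) at hxy
  change IsSquare ((x + ((-m : ℤ) : K)) * u) at ht
  refine ⟨x - m, y, hy, ?_, ?_, ?_⟩
  · rw [hxy]; push_cast; ring
  · have e : (x - m) * (u : K) = (x + ((-m : ℤ) : K)) * u := by push_cast; ring
    rw [e]; exact ht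
  · have e : (x - m + (m : K)) * ((1 : ℤ) : K) = x * ((1 : ℤ) : K) := by ring
    rw [e]; exact hs

theorem conv2 {K : Type} [Field K] {m u : ℤ} (hu : (u : K) ≠ 0)
    (h : LS (pA 2 m) (pB 2 m) 1 u K) : LS m (-16 * m) u u K := by
  obtain ⟨x, y, hy, hxy, hs, ht⟩ := h
  change y ^ 2 = x * (x + ((16 * m : ℤ) : K)) * (x + ((17 * m : ℤ) : K)) at hxy
  change IsSquare ((x + ((16 * m : ℤ) : K)) * u) at ht
  push_cast at hxy ht hs
  obtain ⟨s, hs⟩ := hs
  obtain ⟨t, ht⟩ := ht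
  have hy2 : y ^ 2 ≠ 0 := pow_ne_zero 2 hy
  rw [hxy] at hy2
  have hx : x ≠ 0 := left_ne_zero_of_mul (left_ne_zero_of_mul hy2)
  have hxA : x + 16 * (m : K) ≠ 0 := right_ne_zero_of_mul (left_ne_zero_of_mul hy2)
  refine ⟨x + 16 * m, y, hy, ?_, ⟨t, ?_⟩, ⟨y * t / (s * (x + 16 * m)), ?_⟩⟩
  · rw [hxy]; push_cast; ring
  · exact ht
  · have hs0 : s ≠ 0 := by
      rintro rfl
      apply hx
      linear_combination hs
    have e1 : y * t / (s * (x + 16 * m)) * (y * t / (s * (x + 16 * m))) =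
        y ^ 2 * (t * t) / ((s * s) * (x + 16 * m) ^ 2) := by
      rw [div_mul_div_comm]
      congr 1 <;> ring
    rw [e1, ← ht, ← hs, hxy]
    field_simp
    ring

theorem tc0 {m u : ℤ} (hm : Squarefree m) (hE : ¬ Exc m) (hu : Squarefree u)
    (h : TC m (-16 * m) 1 u) : u = 1 := by
  have hm0 := hm.ne_zero
  rcases h with ⟨-, h⟩ | ⟨h, -⟩ | ⟨h, -⟩ | ⟨h, -⟩
  · exact sqZ squarefree_one hu one_ne_zero (by ring) h
  · exfalso
    obtain ⟨r, hr⟩ := h
    have hm2 : 0 < m ^ 2 := by positivity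
    nlinarith [mul_self_nonneg r]
  · exact absurd (Or.inr (Or.inl (sqZ sf_neg_one hm one_ne_zero (by ring) h))) hE
  · exact absurd (Or.inl (sqZ squarefree_one hm (by norm_num : (4 : ℤ) ≠ 0) (by ring) h)) hE

theorem tc1 {m u : ℤ} (hm : Squarefree m) (hE : ¬ Exc m) (hu : Squarefree u)
    (h : TC m (-16 * m) u 1) : u = 1 := by
  have hm0 := hm.ne_zero
  rcases h with ⟨h, -⟩ | ⟨-, h⟩ | ⟨-, h⟩ | ⟨-, h⟩
  · exact sqZ squarefree_one hu one_ne_zero (by ring) h
  · exact absurd (Or.inl (sqZ squarefree_one hm one_ne_zero (by ring) h)) hE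
  · exfalso
    have h1 := sqZ sf17 squarefree_one hm0 (by ring) h
    omega
  · exact absurd (Or.inr (Or.inr (Or.inl (sqZ sf17 hm one_ne_zero (by ring) h)))) hE

theorem tc2 {m u : ℤ} (hm : Squarefree m) (hE : ¬ Exc m) (hu : Squarefree u)
    (h : TC m (-16 * m) u u) : u = 1 := by
  have hm0 := hm.ne_zero
  rcases h with ⟨h, -⟩ | ⟨h, h'⟩ | ⟨h, h'⟩ | ⟨h, h'⟩
  · exact sqZ squarefree_one hu one_ne_zero (by ring) h
  · exfalso
    have h1 := sqZ sf_neg_one hu (by omega : 4 * m ≠ 0) (by ring) h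
    subst h1
    exact hE (Or.inr (Or.inl (sqZ sf_neg_one hm one_ne_zero (by ring) h')))
  · exfalso
    have h1 := sqZ sf17 hu hm0 (by ring) h'
    subst h1
    exact hE (Or.inr (Or.inr (Or.inr (sqZ sfn17 hm one_ne_zero (by ring) h))))
  · exfalso
    have h3 := h.mul h'
    have e : -(-16 * m) * u * ((m - -16 * m) * u) = 17 * (4 * m * u) ^ 2 := by ring
    rw [e] at h3
    exact not_sq17 (mul_ne_zero (by omega) hu.ne_zero) h3

/-- only the trivial class is everywhere locally solvable -/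
theorem triv (j : Fin 3) {m u : ℤ} (hm : Squarefree m) (hE : ¬ Exc m) (hS : Sys m)
    (hu : Squarefree u) (hp : ∀ (p : ℕ) [Fact p.Prime], LS (pA j m) (pB j m) 1 u ℚ_[p])
    (hr : LS (pA j m) (pB j m) 1 u ℝ) : u = 1 := by
  have h3 : ∀ j : Fin 3, j = 0 ∨ j = 1 ∨ j = 2 := by decide
  have key : ∀ {v w : ℤ}, Squarefree v → Squarefree w → ELS m (-16 * m) v w →
      TC m (-16 * m) v w := fun hv hw h =>
    parts.sysf m hm hS _ _ hv hw ((els_iff parts hm hv hw).1 h)
  rcases h3 j with rfl | rfl | rfl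
  · exact tc0 hm hE hu (key squarefree_one hu ⟨fun p _ => conv0 (hp p), conv0 hr⟩)
  · exact tc1 hm hE hu (key hu squarefree_one ⟨fun p _ => conv1 (hp p), conv1 hr⟩)
  · exact tc2 hm hE hu (key hu hu ⟨fun p _ => conv2 (by exact_mod_cast hu.ne_zero) (hp p),
      conv2 (by exact_mod_cast hu.ne_zero) hr⟩)

/-! ### divisibility -/

theorem dvd_of_primes {u n : ℤ} (hu : Squarefree u) (hn : n ≠ 0)
    (h : ∀ p : ℕ, p.Prime → (p : ℤ) ∣ u → (p : ℤ) ∣ n) : u ∣ n := by
  rw [← Int.natAbs_dvd_natAbs]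
  have h1 : u.natAbs.primeFactors ⊆ n.natAbs.primeFactors := by
    intro p hp
    have hpp := Nat.prime_of_mem_primeFactors hp
    exact Nat.mem_primeFactors.2 ⟨hpp, Int.natCast_dvd.1 (h p hpp (Int.natCast_dvd.2
      (Nat.dvd_of_mem_primeFactors hp))), Int.natAbs_ne_zero.2 hn⟩
  rw [← Nat.prod_primeFactors_of_squarefree (Int.squarefree_natAbs.2 hu)]
  exact (Finset.prod_dvd_prod_of_subset _ _ _ h1).trans (Nat.prod_primeFactors_dvd _)

theorem dvd17' {m : ℤ} {p : ℕ} (h : (p : ℤ) ∣ m) (c : ℤ) : (p : ℤ) ∣ c * m ^ 2 :=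
  Dvd.dvd.mul_left (dvd_pow h two_ne_zero) c

/-- the primes of an everywhere locally solvable class divide `A B` -/
theorem udvd (j : Fin 3) {m u : ℤ} (hm : Squarefree m) (hu : Squarefree u)
    (h : ELU (pA j m) (pB j m) u) : u ∣ pA j m * pB j m := by
  have hm0 := hm.ne_zero
  have h3 : ∀ j : Fin 3, j = 0 ∨ j = 1 ∨ j = 2 := by decide
  rcases h3 j with rfl | rfl | rfl
  · have c := (iparts.ul0 m u hm hu).1 h
    have e : pA 0 m * pB 0 m = -16 * m ^ 2 := by
      show m * (-16 * m) = _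
      ring
    rw [e]
    refine dvd_of_primes hu (mul_ne_zero (by norm_num) (pow_ne_zero 2 hm0)) fun p hp hd => ?_
    by_cases hpm : (p : ℤ) ∣ m
    · exact dvd17' hpm _
    by_cases h2 : p = 2
    · subst h2
      exact Dvd.dvd.mul_right (by norm_num) _
    by_cases h17 : p = 17
    · subst h17
      exact absurd hd (c.s17 hpm).1
    · exact absurd hd (c.good p hp h2 h17 hpm)
  · have c := (iparts.ul1 m u hm hu).1 h
    have e : pA 1 m * pB 1 m = 17 * m ^ 2 := by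
      show -m * (-17 * m) = _
      ring
    rw [e]
    refine dvd_of_primes hu (mul_ne_zero (by norm_num) (pow_ne_zero 2 hm0)) fun p hp hd => ?_
    by_cases hpm : (p : ℤ) ∣ m
    · exact dvd17' hpm _
    by_cases h2 : p = 2
    · subst h2
      exfalso
      have hd' : (2 : ℤ) ∣ u := by exact_mod_cast hd
      have hpm' : ¬ (2 : ℤ) ∣ m := by exact_mod_cast hpm
      by_cases h4 : m % 4 = 1
      · have := c.o2 h4
        omega
      · rcases c.e2 h4 with h5 | h5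
        · exact h5.2 hd'
        · exact hpm' (h5.1.1 hd')
    by_cases h17 : p = 17
    · subst h17
      exact Dvd.dvd.mul_right (by norm_num) _
    · exact absurd hd (c.good p hp h2 h17 hpm)
  · have c := (iparts.ul2 m u hm hu).1 h
    have e : pA 2 m * pB 2 m = 272 * m ^ 2 := by
      show 16 * m * (17 * m) = _
      ring
    rw [e]
    refine dvd_of_primes hu (mul_ne_zero (by norm_num) (pow_ne_zero 2 hm0)) fun p hp hd => ?_
    by_cases hpm : (p : ℤ) ∣ m
    · exact dvd17' hpm _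
    by_cases h2 : p = 2
    · subst h2
      exact Dvd.dvd.mul_right (by norm_num) _
    by_cases h17 : p = 17
    · subst h17
      exact Dvd.dvd.mul_right (by norm_num) _
    · exact absurd hd (c.good p hp h2 h17 hpm)

/-! ### the sets -/

/-- the set of the frozen statement -/
def Sel (a b : ℤ) : Set ℤ :=
  {b₁ : ℤ | Squarefree b₁ ∧ b₁ ∣ b ∧
    (∃ N M e : ℝ, (M ≠ 0 ∨ e ≠ 0) ∧
      N ^ 2 = (b₁ : ℝ) * M ^ 4 + (a : ℝ) * M ^ 2 * e ^ 2 + ((b / b₁ : ℤ) : ℝ) * e ^ 4) ∧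
    ∀ (p : ℕ) [Fact p.Prime], ∃ N M e : Padic p, (M ≠ 0 ∨ e ≠ 0) ∧
      N ^ 2 = (b₁ : Padic p) * M ^ 4 + (a : Padic p) * M ^ 2 * e ^ 2
        + ((b / b₁ : ℤ) : Padic p) * e ^ 4}

theorem cast_quot {K : Type} [Field K] [CharZero K] {b u : ℤ} (hu : u ≠ 0) (h : u ∣ b) :
    ((b / u : ℤ) : K) = (b : K) / u := by
  have hu' : (u : K) ≠ 0 := by exact_mod_cast hu
  rw [eq_div_iff hu', ← Int.cast_mul, Int.ediv_mul_cancel h]

theorem mem_Sel {a b u : ℤ} : u ∈ Sel a b ↔ Squarefree u ∧ u ∣ b ∧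
    (∀ (p : ℕ) [Fact p.Prime], QS ℚ_[p] a b u) ∧ QS ℝ a b u := by
  constructor
  · rintro ⟨h1, h2, h3, h4⟩
    refine ⟨h1, h2, fun p _ => ?_, ?_⟩
    · have h5 := h4 p
      rw [cast_quot h1.ne_zero h2] at h5
      exact h5
    · rw [cast_quot h1.ne_zero h2] at h3
      exact h3
  · rintro ⟨h1, h2, h3, h4⟩
    refine ⟨h1, h2, ?_, fun p _ => ?_⟩
    · rw [cast_quot h1.ne_zero h2]
      exact h4
    · have h5 := h3 p
      rw [cast_quot h1.ne_zero h2]
      exact h5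

/-- the nontrivial set: `(a, b) = λ` times `(A + B, A B)` -/
theorem Sel_big (j : Fin 3) {m a b k l : ℤ} (hm : Squarefree m) (hk : k ≠ 0) (hl : l ≠ 0)
    (ha : a * l ^ 2 = (pA j m + pB j m) * k ^ 2) (hb : b * l ^ 4 = pA j m * pB j m * k ^ 4)
    (hd : ∀ u : ℤ, Squarefree u → ELU (pA j m) (pB j m) u → u ∣ b) :
    Sel a b = {u : ℤ | Squarefree u ∧ ELU (pA j m) (pB j m) u} := by
  have hm0 := hm.ne_zero
  have hA : pA j m ≠ 0 := QASHA.pA_ne hm0
  have hB : pB j m ≠ 0 := QASHA.pB_ne hm0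
  have key : ∀ (K : Type) [Field K] [CharZero K] (u : ℤ), u ≠ 0 →
      (QS K (a : K) (b : K) (u : K) ↔ LU (pA j m) (pB j m) u K) := by
    intro K _ _ u hu
    have hk' : (k : K) ≠ 0 := by exact_mod_cast hk
    have hl' : (l : K) ≠ 0 := by exact_mod_cast hl
    have ha' : (a : K) * l ^ 2 = ((pA j m : K) + pB j m) * k ^ 2 := by exact_mod_cast ha
    have hb' : (b : K) * l ^ 4 = ((pA j m : K) * pB j m) * k ^ 4 := by exact_mod_cast hb
    rw [← scale hl', ha', hb', scale hk', qs_lu hA hB hu]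
  ext u
  rw [mem_Sel, Set.mem_setOf_eq]
  constructor
  · rintro ⟨h1, -, h3, h4⟩
    exact ⟨h1, fun p _ => (key _ u h1.ne_zero).1 (h3 p), (key _ u h1.ne_zero).1 h4⟩
  · rintro ⟨h1, h2⟩
    exact ⟨h1, hd u h1 h2, fun p _ => (key _ u h1.ne_zero).2 (h2.1 p),
      (key _ u h1.ne_zero).2 h2.2⟩

/-- the trivial set: `(a, b) = λ` times `(-2 (A + B), (A - B)²)` -/
theorem Sel_one (j : Fin 3) {m a b k l : ℤ} (hm : Squarefree m) (hE : ¬ Exc m) (hS : Sys m)
    (hk : k ≠ 0) (hl : l ≠ 0)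
    (ha : a * l ^ 2 = -2 * (pA j m + pB j m) * k ^ 2)
    (hb : b * l ^ 4 = (pA j m - pB j m) ^ 2 * k ^ 4) : Sel a b = {1} := by
  have hm0 := hm.ne_zero
  have hA : pA j m ≠ 0 := QASHA.pA_ne hm0
  have hB : pB j m ≠ 0 := QASHA.pB_ne hm0
  have hAB : pA j m ≠ pB j m := QASHA.pAB_ne hm0
  have key : ∀ (K : Type) [Field K] [CharZero K] (u : ℤ), u ≠ 0 → LS (pA j m) (pB j m) 1 1 K →
      QS K (a : K) (b : K) (u : K) → LS (pA j m) (pB j m) 1 u K := by
    intro K _ _ u hu h1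
    have hk' : (k : K) ≠ 0 := by exact_mod_cast hk
    have hl' : (l : K) ≠ 0 := by exact_mod_cast hl
    have ha' : (a : K) * l ^ 2 = (-2 * ((pA j m : K) + pB j m)) * k ^ 2 := by exact_mod_cast ha
    have hb' : (b : K) * l ^ 4 = ((pA j m : K) - pB j m) ^ 2 * k ^ 4 := by exact_mod_cast hb
    rw [← scale hl', ha', hb', scale hk']
    exact qs_ls hA hB hAB hu h1
  ext u
  rw [mem_Sel, Set.mem_singleton_iff]
  constructor
  · rintro ⟨h1, -, h3, h4⟩
    exact triv j hm hE hS h1 (fun p _ => key _ u h1.ne_zero (LS.one _ _) (h3 p))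
      (key _ u h1.ne_zero (QLUV.real_one _ _) h4)
  · rintro rfl
    have q : ∀ (K : Type) [Field K], QS K (a : K) (b : K) ((1 : ℤ) : K) := by
      intro K _
      refine ⟨1, 1, 0, Or.inl one_ne_zero, ?_⟩
      push_cast
      ring
    exact ⟨squarefree_one, one_dvd _, fun p _ => q _, q _⟩

/-! ### the parity of the exponents -/

theorem card_filter_z {S : Finset ℕ} (f : ℕ → ZMod 2) :
    (((S.filter fun q => f q = 1).card : ℕ) : ZMod 2) = ∑ q ∈ S, f q := by
  rw [Finset.card_filter]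
  push_cast
  refine Finset.sum_congr rfl fun q _ => ?_
  have : ∀ z : ZMod 2, (if z = 1 then (1 : ZMod 2) else 0) = z := by decide
  exact this (f q)

theorem even_of {n : ℕ} (h : (n : ZMod 2) = 0) : Even n :=
  even_iff_two_dvd.2 ((ZMod.natCast_eq_zero_iff n 2).1 h)

theorem na_par {m : ℤ} (hm : Squarefree m) : ((na m : ℕ) : ZMod 2) = if m < 0 then 1 else 0 := by
  unfold na
  rw [card_filter_z, QPARITY.al_sum hm]
  rfl

theorem nn_par {m : ℤ} (hm : Squarefree m) (h17 : ¬ (17 : ℤ) ∣ m) :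
    ((nn m : ℕ) : ZMod 2) = QPARITY.jj m 17 := by
  unfold nn
  have h : 17 ∉ RS m := fun h => h17 (by exact_mod_cast QSYSF.dvd_of_RS hm h (by norm_num))
  rw [card_filter_z, ← QPARITY.nu_sum hm h17, Finset.erase_eq_of_notMem h]
  refine Finset.sum_congr rfl fun p hp => ?_
  split_ifs with hd
  · rw [mul_one]
  · have h2 : p = 2 := by
      by_contra h2
      exact hd (QSYSF.dvd_of_RS hm hp h2)
    subst h2
    rw [mul_zero]
    rfl

theorem nn_17 {n : ℤ} (hn : n ≠ 0) : nn (17 * n) = nn n := by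
  have e : Kn (17 * n) = 17 * Kn n := by
    unfold Kn
    by_cases h : n % 4 = 1
    · rw [if_pos h, if_pos (by omega), Int.natAbs_mul]
      rfl
    · rw [if_neg h, if_neg (by omega), Int.natAbs_mul]
      show 4 * (17 * n.natAbs) = _
      ring
  have e2 : (RS (17 * n)).erase 17 = (RS n).erase 17 := by
    unfold RS
    rw [e, Nat.primeFactors_mul (by norm_num) (Kn_ne hn),
      (by norm_num : Nat.Prime 17).primeFactors]
    ext q
    simp only [Finset.mem_erase, Finset.mem_union, Finset.mem_singleton]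
    tauto
  unfold nn
  rw [e2]

theorem eJ_even (j : Fin 3) {m : ℤ} (hm : Squarefree m) (hR : Rt m) : Even (eJ j m) := by
  have hm0 := hm.ne_zero
  have z2 : (1 : ZMod 2) + 1 = 0 := by decide
  have h17z : (17 : ℤ) ∣ m → jacobiSym m 17 = 0 := by
    intro h
    rw [jacobiSym.mod_left]
    have : m % ((17 : ℕ) : ℤ) = 0 := Int.emod_eq_zero_of_dvd h
    rw [this]
    exact jacobiSym.zero_left (by norm_num)
  have hna := na_par hm
  -- the exponents with `nn`
  have hpos : 0 < m → ((nn m : ℕ) : ZMod 2) = 0 := by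
    intro h
    have hj : jacobiSym m 17 = 1 := by
      rcases hR with h1 | h1
      · exact h1.2
      · exact absurd h1.1 (not_lt.2 h.le)
    have h17 : ¬ (17 : ℤ) ∣ m := by
      intro h2
      rw [h17z h2] at hj
      exact absurd hj (by norm_num)
    rw [nn_par hm h17]
    unfold QPARITY.jj
    rw [if_pos hj]
  have hneg : m < 0 → (((if (17 : ℤ) ∣ m then nn m + (lam 17 m).val else nn m + 1 : ℕ)) : ZMod 2)
      = 0 := by
    intro h
    have hj : jacobiSym m 17 ≠ 1 := by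
      rcases hR with h1 | h1
      · exact absurd h1.1 (not_lt.2 h.le)
      · exact h1.2
    by_cases h17 : (17 : ℤ) ∣ m
    · rw [if_pos h17]
      obtain ⟨n, rfl⟩ := h17
      have hn : Squarefree n := hm.squarefree_of_dvd (Dvd.intro_left _ rfl)
      have hn17 : ¬ (17 : ℤ) ∣ n := by
        rintro ⟨k, rfl⟩
        have := hm 17 ⟨k, by ring⟩
        rw [Int.isUnit_iff] at this
        omega
      push_cast
      rw [nn_17 hn.ne_zero, nn_par hn hn17, ZMod.natCast_zmod_val]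
      have e : lam 17 (17 * n) = QPARITY.jj n 17 := by
        have e0 : up 17 (17 * n) = n := by
          unfold up
          rw [if_pos (show ((17 : ℕ) : ℤ) ∣ 17 * n from Dvd.intro n rfl)]
          push_cast
          omega
        unfold lam QPARITY.jj
        rw [e0]
      rw [e]
      exact QPARITY.add_self _
    · rw [if_neg h17]
      push_cast
      rw [nn_par hm h17]
      unfold QPARITY.jj
      rw [if_neg hj]
      exact z2
  have h3 : ∀ j : Fin 3, j = 0 ∨ j = 1 ∨ j = 2 := by decide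
  apply even_of
  rcases lt_or_gt_of_ne hm0 with h | h
  · have h' : ¬ 0 < m := not_lt.2 h.le
    rw [if_pos h] at hna
    rcases h3 j with rfl | rfl | rfl
    · show (((if 0 < m then na m else na m + 1 : ℕ)) : ZMod 2) = 0
      rw [if_neg h']
      push_cast
      rw [hna]
      exact z2
    · show (((if 0 < m then nn m else _ : ℕ)) : ZMod 2) = 0
      rw [if_neg h']
      exact hneg h
    · show (((if 0 < m then nn m + 2 else _ : ℕ)) : ZMod 2) = 0
      rw [if_neg h']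
      exact hneg h
  · have h' : ¬ m < 0 := not_lt.2 h.le
    rw [if_neg h'] at hna
    rcases h3 j with rfl | rfl | rfl
    · show (((if 0 < m then na m else na m + 1 : ℕ)) : ZMod 2) = 0
      rw [if_pos h]
      exact hna
    · show (((if 0 < m then nn m else _ : ℕ)) : ZMod 2) = 0
      rw [if_pos h]
      exact hpos h
    · show (((if 0 < m then nn m + 2 else _ : ℕ)) : ZMod 2) = 0
      rw [if_pos h]
      push_cast
      rw [hpos h]
      decide

/-! ### the points -/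

/-- `y² = x³ + a x² + b x` -/
abbrev Eab (a b : ℤ) : WeierstrassCurve ℚ :=
  { a₁ := 0, a₂ := (a : ℚ), a₃ := 0, a₄ := (b : ℚ), a₆ := 0 }

theorem fin_of {W : WeierstrassCurve ℚ} {a b : ℤ} {k l : ℚ} (hk : k ≠ 0) (hl : l ≠ 0)
    (h1 : W.a₁ = 0) (h3 : W.a₃ = 0) (h6 : W.a₆ = 0) (h2 : a * l ^ 2 = W.a₂ * k ^ 2)
    (h4 : b * l ^ 4 = W.a₄ * k ^ 4) (hD : W.Δ ≠ 0) (hf : Finite W.toAffine.Point) :
    Finite (Eab a b).toAffine.Point := by
  have v : Pool.Agent.Y700.VR W (Eab a b) (l / k) 0 0 0 := by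
    refine ⟨div_ne_zero hl hk, ?_, ?_, ?_, ?_, ?_⟩
    · rw [h1]; simp
    · rw [h1]
      show (l / k) ^ 2 * (a : ℚ) = _
      rw [div_pow, div_mul_eq_mul_div, div_eq_iff (pow_ne_zero 2 hk)]
      linear_combination h2
    · rw [h1, h3]; simp
    · rw [h1, h3]
      show (l / k) ^ 4 * (b : ℚ) = _
      rw [div_pow, div_mul_eq_mul_div, div_eq_iff (pow_ne_zero 4 hk)]
      linear_combination h4
    · rw [h1, h3, h6]; simp
  exact Finite.of_equiv _ (v.equiv (QASHA.vr_ne v hD)).toEquiv.symm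

theorem fin_E (j : Fin 3) {m : ℤ} (hm : Squarefree m) (hS : Sys m) :
    (EAB (pA j m) (pB j m)).Δ ≠ 0 ∧ Finite (EAB (pA j m) (pB j m)).toAffine.Point := by
  obtain ⟨hf, -⟩ := (sha_iff parts hm).2 hS
  obtain ⟨-, ⟨u2, r2, s2, t2, v2⟩⟩ := QAVR.t_AVR j m
  have hD2 : (EAB (pA j m) (pB j m)).Δ ≠ 0 := QASHA.vr_ne v2 (delta_EAB hm.ne_zero)
  exact ⟨hD2, Finite.of_equiv _ (v2.equiv hD2).toEquiv.symm⟩

theorem delta_I {A B : ℤ} (hA : A ≠ 0) (hB : B ≠ 0) (hAB : A ≠ B) : (IAB A B).Δ ≠ 0 := by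
  have hA' : (A : ℚ) ≠ 0 := by exact_mod_cast hA
  have hB' : (B : ℚ) ≠ 0 := by exact_mod_cast hB
  have hAB' : (A : ℚ) - B ≠ 0 := by
    rw [sub_ne_zero]
    exact_mod_cast hAB
  have e : (IAB A B).Δ = 256 * ((A : ℚ) - B) ^ 4 * A * B := by
    simp only [IAB, WeierstrassCurve.Δ, WeierstrassCurve.b₂, WeierstrassCurve.b₄,
      WeierstrassCurve.b₆, WeierstrassCurve.b₈]
    ring
  rw [e]
  exact mul_ne_zero (mul_ne_zero (mul_ne_zero (by norm_num) (pow_ne_zero 4 hAB')) hA') hB'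

theorem fin_I (j : Fin 3) {m : ℤ} (hm : Squarefree m) (hS : Sys m) :
    Finite (IAB (pA j m) (pB j m)).toAffine.Point := by
  obtain ⟨hf, hs⟩ := (sha_iff parts hm).2 hS
  obtain ⟨-, ⟨u2, r2, s2, t2, v2⟩⟩ := QAVR.t_AVR j m
  have hm0 := hm.ne_zero
  have hD2 : (EAB (pA j m) (pB j m)).Δ ≠ 0 := QASHA.vr_ne v2 (delta_EAB hm0)
  have hfin : Finite (EAB (pA j m) (pB j m)).toAffine.Point :=
    Finite.of_equiv _ (v2.equiv hD2).toEquiv.symm
  have hs2 : ∀ x : Pool.Agent.TH841.SH.D.Sha (EAB (pA j m) (pB j m)), 2 • x = 0 → x = 0 :=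
    fun x hx => Pool.Agent.Y700.sha_two_pow v2 hD2 hs 1 x (by rw [pow_one]; exact hx)
  exact (iparts.iabs1 (pA j m) (pB j m) (QASHA.pA_ne hm0) (QASHA.pB_ne hm0) (QASHA.pAB_ne hm0)
    hfin hs2).1

theorem two_le (j : Fin 3) {m : ℤ} (hm : Squarefree m) (hE : ¬ Exc m) (hS : Sys m) :
    2 ≤ eJ j m :=
  (QASHA.t_ASHA parts iparts QAVR.t_AVR QADEL.t_ADEL j m hm hE hS).2.2.1

end Pool.Agent.H743.SQ
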