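import Pool.Agent.H743.SQ.B

/-!
# All the integral equations
-/

set_option autoImplicit false
set_option linter.all false

open scoped Classical

namespace Pool.Agent.H743.SQ

open Pool.Agent.H743.X17

theorem core1 {p : ℕ} (hp : p.Prime) {a b s t k l : ℤ} (hkl : IsCoprime k l)
    (ha : a * l ^ 2 = s * k ^ 2) (hb : b * l ^ 4 = t * k ^ 4) (hpt : (p : ℤ) ∣ t)
    (hpb : ¬ (p : ℤ) ∣ b) : (p : ℤ) ∣ l ∧ (p : ℤ) ^ 2 ∣ s ∧ (p : ℤ) ^ 4 ∣ t := by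
  have hpz : Prime (p : ℤ) := Nat.prime_iff_prime_int.1 hp
  have h1 : (p : ℤ) ∣ b * l ^ 4 := hb ▸ (hpt.mul_right _)
  have h2 : (p : ℤ) ∣ l := by
    rcases hpz.dvd_or_dvd h1 with h | h
    · exact absurd h hpb
    · exact hpz.dvd_of_dvd_pow h
  have hk : IsCoprime (p : ℤ) k := (hkl.of_isCoprime_of_dvd_right h2).symm
  refine ⟨h2, ?_, ?_⟩
  · have h3 : (p : ℤ) ^ 2 ∣ s * k ^ 2 := ha ▸ ((pow_dvd_pow_of_dvd h2 2).mul_left a)
    exact (hk.pow (m := 2) (n := 2)).dvd_of_dvd_mul_right h3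
  · have h3 : (p : ℤ) ^ 4 ∣ t * k ^ 4 := hb ▸ ((pow_dvd_pow_of_dvd h2 4).mul_left b)
    exact (hk.pow (m := 4) (n := 4)).dvd_of_dvd_mul_right h3

theorem nsq {p : ℕ} (hp : p.Prime) {m : ℤ} (hm : Squarefree m) : ¬ (p : ℤ) ^ 2 ∣ m := by
  intro h
  rw [sq] at h
  have := hm _ h
  rw [Int.isUnit_iff] at this
  have := hp.two_le
  omega

theorem nsq4 {p : ℕ} (hp : p.Prime) {m : ℤ} (hm : Squarefree m) : ¬ (p : ℤ) ^ 4 ∣ m ^ 2 := by
  intro h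
  have h1 : ((p : ℤ) ^ 2) ^ 2 ∣ m ^ 2 := by
    rw [← pow_mul]; exact h
  exact nsq hp hm ((Int.pow_dvd_pow_iff two_ne_zero).1 h1)

theorem cop {p q : ℕ} (hp : p.Prime) (hq : q.Prime) (h : p ≠ q) : IsCoprime (p : ℤ) (q : ℤ) := by
  rw [Int.isCoprime_iff_gcd_eq_one]
  exact (Nat.coprime_primes hp hq).2 h

theorem n17 {m : ℤ} (hm : Squarefree m) : ¬ (17 : ℤ) ^ 4 ∣ 17 * m ^ 2 := by
  rintro ⟨c, hc⟩
  have h17 : Prime (17 : ℤ) := Int.prime_iff_natAbs_prime.2 (by norm_num)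
  have h1 : m ^ 2 = 17 * (17 ^ 2 * c) := by omega
  obtain ⟨n, rfl⟩ := h17.dvd_of_dvd_pow (Dvd.intro _ h1.symm)
  have h2 : n ^ 2 = 17 * c := by
    have : 17 ^ 2 * (n ^ 2) = 17 ^ 2 * (17 * c) := by linear_combination h1
    exact mul_left_cancel₀ (by norm_num) this
  obtain ⟨r, rfl⟩ := h17.dvd_of_dvd_pow (Dvd.intro _ h2.symm)
  have := hm 17 ⟨r, by ring⟩
  rw [Int.isUnit_iff] at this
  omega

theorem p2 : Nat.Prime 2 := Nat.prime_two
theorem p17 : Nat.Prime 17 := by norm_num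

/-- type I: the primes -/
theorem no1 (j : Fin 3) {p : ℕ} (hp : p.Prime) {m : ℤ} (hm : Squarefree m)
    (h2 : (p : ℤ) ^ 2 ∣ pA j m + pB j m) (h4 : (p : ℤ) ^ 4 ∣ pA j m * pB j m) : False := by
  have h3 : ∀ j : Fin 3, j = 0 ∨ j = 1 ∨ j = 2 := by decide
  have m4 := sqf_mod4 hm
  rcases h3 j with rfl | rfl | rfl
  · change (p : ℤ) ^ 2 ∣ m + -16 * m at h2
    change (p : ℤ) ^ 4 ∣ m * (-16 * m) at h4
    by_cases hp2 : p = 2
    · subst hp2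
      norm_num at h2
      omega
    · have e : m * (-16 * m) = -(m ^ 2 * (2 : ℤ) ^ 4) := by ring
      rw [e, dvd_neg] at h4
      have hc := (cop hp p2 hp2).pow (m := 4) (n := 4)
      exact nsq4 hp hm (hc.dvd_of_dvd_mul_right h4)
  · change (p : ℤ) ^ 4 ∣ -m * (-17 * m) at h4
    have e : -m * (-17 * m) = m ^ 2 * 17 := by ring
    rw [e] at h4
    by_cases hp17 : p = 17
    · subst hp17
      rw [mul_comm] at h4
      exact n17 hm (by exact_mod_cast h4)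
    · have hc := (cop hp p17 hp17).pow_left (m := 4)
      exact nsq4 hp hm (hc.dvd_of_dvd_mul_right h4)
  · change (p : ℤ) ^ 2 ∣ 16 * m + 17 * m at h2
    change (p : ℤ) ^ 4 ∣ 16 * m * (17 * m) at h4
    by_cases hp2 : p = 2
    · subst hp2
      norm_num at h2
      omega
    · have e : 16 * m * (17 * m) = (17 * m ^ 2) * (2 : ℤ) ^ 4 := by ring
      rw [e] at h4
      have hc := (cop hp p2 hp2).pow (m := 4) (n := 4)
      have h5 := hc.dvd_of_dvd_mul_right h4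
      by_cases hp17 : p = 17
      · subst hp17
        exact n17 hm (by exact_mod_cast h5)
      · have hc := (cop hp p17 hp17).pow_left (m := 4)
        exact nsq4 hp hm (hc.dvd_of_dvd_mul_left h5)

/-- type II: the primes -/
theorem no2 (j : Fin 3) {p : ℕ} (hp : p.Prime) {m : ℤ} (hm : Squarefree m)
    (h2 : (p : ℤ) ^ 2 ∣ -2 * (pA j m + pB j m)) (h4 : (p : ℤ) ^ 2 ∣ pA j m - pB j m) :
    j = 1 ∧ p = 2 := by
  have h3 : ∀ j : Fin 3, j = 0 ∨ j = 1 ∨ j = 2 := by decide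
  rcases h3 j with rfl | rfl | rfl
  · exfalso
    change (p : ℤ) ^ 2 ∣ -2 * (m + -16 * m) at h2
    change (p : ℤ) ^ 2 ∣ m - (-16 * m) at h4
    have h5 := (h2.mul_right 4).sub (h4.mul_right 7)
    have e : -2 * (m + -16 * m) * 4 - (m - (-16 * m)) * 7 = m := by ring
    rw [e] at h5
    exact nsq hp hm h5
  · refine ⟨rfl, ?_⟩
    change (p : ℤ) ^ 2 ∣ -2 * (-m + -17 * m) at h2
    change (p : ℤ) ^ 2 ∣ -m - (-17 * m) at h4
    by_contra hp2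
    have h5 := h4.mul_right 1
    have e : (-m - (-17 * m)) * 1 = m * 2 ^ 4 := by ring
    rw [e] at h5
    have hc := (cop hp p2 hp2).pow (m := 2) (n := 4)
    exact nsq hp hm (hc.dvd_of_dvd_mul_right h5)
  · exfalso
    change (p : ℤ) ^ 2 ∣ 16 * m - 17 * m at h4
    have e : 16 * m - 17 * m = -m := by ring
    rw [e, dvd_neg] at h4
    exact nsq hp hm h4

/-- divisibility, type I -/
theorem div1 (j : Fin 3) {m a b k l u : ℤ} (hm : Squarefree m) (hb0 : b ≠ 0)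
    (hkl : IsCoprime k l) (ha : a * l ^ 2 = (pA j m + pB j m) * k ^ 2)
    (hb : b * l ^ 4 = pA j m * pB j m * k ^ 4) (hu : Squarefree u)
    (h : ELU (pA j m) (pB j m) u) : u ∣ b := by
  refine dvd_of_primes hu hb0 fun p hp hpu => ?_
  by_contra hpb
  obtain ⟨-, h2, h4⟩ := core1 hp hkl ha hb (hpu.trans (udvd j hm hu h)) hpb
  exact no1 j hp hm h2 h4

/-- divisibility, type II -/
theorem div2 (j : Fin 3) {m a b k l u : ℤ} (hm : Squarefree m) (hb0 : a ^ 2 - 4 * b ≠ 0)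
    (hkl : IsCoprime k l) (ha : a * l ^ 2 = -2 * (pA j m + pB j m) * k ^ 2)
    (hb : b * l ^ 4 = (pA j m - pB j m) ^ 2 * k ^ 4) (hu : Squarefree u)
    (h : ELU (pA j m) (pB j m) u) : u ∣ a ^ 2 - 4 * b := by
  have hb' : (a ^ 2 - 4 * b) * l ^ 4 = (16 * (pA j m * pB j m)) * k ^ 4 := by
    linear_combination (a * l ^ 2 + -2 * (pA j m + pB j m) * k ^ 2) * ha - 4 * hb
  refine dvd_of_primes hu hb0 fun p hp hpu => ?_
  by_contra hpb
  have hpz : Prime (p : ℤ) := Nat.prime_iff_prime_int.1 hp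
  obtain ⟨hl, h2, h4⟩ := core1 hp hkl ha hb' ((hpu.trans (udvd j hm hu h)).mul_left 16) hpb
  have hk : IsCoprime (p : ℤ) k := (hkl.of_isCoprime_of_dvd_right hl).symm
  have h5 : (p : ℤ) ^ 4 ∣ (pA j m - pB j m) ^ 2 * k ^ 4 :=
    hb ▸ ((pow_dvd_pow_of_dvd hl 4).mul_left b)
  have h6 := (hk.pow (m := 4) (n := 4)).dvd_of_dvd_mul_right h5
  have h7 : (p : ℤ) ^ 2 ∣ pA j m - pB j m := by
    have h8 : ((p : ℤ) ^ 2) ^ 2 ∣ (pA j m - pB j m) ^ 2 := by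
      rw [← pow_mul]; exact h6
    exact (Int.pow_dvd_pow_iff two_ne_zero).1 h8
  obtain ⟨rfl, rfl⟩ := no2 j hp hm h2 h7
  -- the prime 2
  have c := (iparts.ul1 m u hm hu).1 h
  have hpu' : (2 : ℤ) ∣ u := by exact_mod_cast hpu
  have hme : (2 : ℤ) ∣ m := by
    by_cases h4' : m % 4 = 1
    · have := c.o2 h4'
      omega
    · rcases c.e2 h4' with h5 | h5
      · exact absurd hpu' h5.2
      · exact h5.1.1 hpu'
  obtain ⟨n, rfl⟩ := hme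
  have hn : ¬ (2 : ℤ) ∣ n := by
    rintro ⟨r, rfl⟩
    exact sqf_mod4 hm (by omega)
  have hl' : (2 : ℤ) ∣ l := by exact_mod_cast hl
  obtain ⟨l', rfl⟩ := hl'
  have hkk : ¬ (2 : ℤ) ∣ k := by
    intro h9
    have h10 := hk.isUnit_of_dvd' (x := (2 : ℤ)) (by norm_num) h9
    rw [Int.isUnit_iff] at h10
    omega
  have hpb' : ¬ (2 : ℤ) ∣ a ^ 2 - 4 * b := by exact_mod_cast hpb
  change (a ^ 2 - 4 * b) * (2 * l') ^ 4 = (16 * (-(2 * n) * (-17 * (2 * n)))) * k ^ 4 at hb'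
  have h11 : (a ^ 2 - 4 * b) * l' ^ 4 = 4 * (17 * n ^ 2 * k ^ 4) := by
    have : 16 * ((a ^ 2 - 4 * b) * l' ^ 4) = 16 * (4 * (17 * n ^ 2 * k ^ 4)) := by
      linear_combination hb'
    exact mul_left_cancel₀ (by norm_num) this
  have h2z : Prime (2 : ℤ) := Int.prime_two
  have h12 : (2 : ℤ) ∣ l' := by
    have h13 : (2 : ℤ) ∣ (a ^ 2 - 4 * b) * l' ^ 4 := by
      rw [h11]
      exact ⟨2 * (17 * n ^ 2 * k ^ 4), by ring⟩
    rcases h2z.dvd_or_dvd h13 with h14 | h14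
    · exact absurd h14 hpb'
    · exact h2z.dvd_of_dvd_pow h14
  obtain ⟨r, rfl⟩ := h12
  have h15 : (2 : ℤ) ∣ 17 * n ^ 2 * k ^ 4 := by
    refine ⟨2 * ((a ^ 2 - 4 * b) * r ^ 4), ?_⟩
    have : 4 * (17 * n ^ 2 * k ^ 4) = 4 * (2 * (2 * ((a ^ 2 - 4 * b) * r ^ 4))) := by
      linear_combination -h11
    exact mul_left_cancel₀ (by norm_num) this
  rcases h2z.dvd_or_dvd h15 with h16 | h16
  · rcases h2z.dvd_or_dvd h16 with h17 | h17
    · omega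
    · exact hn (h2z.dvd_of_dvd_pow h17)
  · exact hkk (h2z.dvd_of_dvd_pow h16)

/-- `(a, b) = (s λ², t λ⁴)` -/
theorem coord {a b s t : ℤ} {x : ℚ} (hx : x ≠ 0) (ha : (a : ℚ) = s * x ^ 2)
    (hb : (b : ℚ) = t * x ^ 4) : ∃ k l : ℤ, k ≠ 0 ∧ l ≠ 0 ∧ IsCoprime k l ∧
      a * l ^ 2 = s * k ^ 2 ∧ b * l ^ 4 = t * k ^ 4 := by
  have hd : (x.den : ℚ) ≠ 0 := by exact_mod_cast x.den_nz
  have e : x * x.den = x.num := Rat.mul_den_eq_num x
  refine ⟨x.num, x.den, Rat.num_ne_zero.2 hx, by exact_mod_cast x.den_nz, ?_, ?_, ?_⟩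
  · rw [Int.isCoprime_iff_gcd_eq_one]
    exact x.reduced
  · have : (a : ℚ) * (x.den : ℚ) ^ 2 = s * (x.num : ℚ) ^ 2 := by rw [ha, ← e]; ring
    exact_mod_cast this
  · have : (b : ℚ) * (x.den : ℚ) ^ 4 = t * (x.num : ℚ) ^ 4 := by rw [hb, ← e]; ring
    exact_mod_cast this

/-- the rank -/
theorem rank0 {G : Type} [AddCommGroup G] (hf : Finite G) : Module.finrank ℤ G = 0 := by
  rw [Module.finrank, Module.rank_eq_zero_iff_isTorsion.2]
  · simp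
  · intro x
    refine ⟨⟨(Nat.card G : ℤ), ?_⟩, ?_⟩
    · exact mem_nonZeroDivisors_of_ne_zero (by exact_mod_cast Nat.card_pos.ne')
    · show (Nat.card G : ℤ) • x = 0
      rw [natCast_zsmul]
      exact card_nsmul_eq_zero'

/-- **type I** -/
theorem main1 (j : Fin 3) {m a b : ℤ} {x : ℚ} (hm : Squarefree m) (hE : ¬ Exc m) (hS : Sys m)
    (hx : x ≠ 0) (ha : (a : ℚ) = (pA j m + pB j m : ℤ) * x ^ 2)
    (hb : (b : ℚ) = (pA j m * pB j m : ℤ) * x ^ 4) :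
    b ≠ 0 ∧ a ^ 2 - 4 * b ≠ 0 ∧ Finite (Eab a b).toAffine.Point ∧
      (Sel a b).Finite ∧ (Sel a b).ncard = 2 ^ eJ j m ∧ Sel (-2 * a) (a ^ 2 - 4 * b) = {1} := by
  have hm0 := hm.ne_zero
  have h1 : m ≠ 1 := fun h' => hE (Or.inl h')
  have hA : pA j m ≠ 0 := QASHA.pA_ne hm0
  have hB : pB j m ≠ 0 := QASHA.pB_ne hm0
  have hAB : pA j m ≠ pB j m := QASHA.pAB_ne hm0
  obtain ⟨k, l, hk, hl, hkl, ea, eb⟩ := coord hx ha hb
  have hb0 : b ≠ 0 := by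
    rintro rfl
    rw [zero_mul] at eb
    exact mul_ne_zero (mul_ne_zero hA hB) (pow_ne_zero 4 hk) eb.symm
  have ed : (a ^ 2 - 4 * b) * l ^ 4 = (pA j m - pB j m) ^ 2 * k ^ 4 := by
    linear_combination (a * l ^ 2 + (pA j m + pB j m) * k ^ 2) * ea - 4 * eb
  have hd0 : a ^ 2 - 4 * b ≠ 0 := by
    intro h
    rw [h, zero_mul] at ed
    exact mul_ne_zero (pow_ne_zero 2 (sub_ne_zero.2 hAB)) (pow_ne_zero 4 hk) ed.symm
  have e1 := Sel_big j hm hk hl ea eb fun u hu h => div1 j hm hb0 hkl ea eb hu h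
  have e2 : Sel (-2 * a) (a ^ 2 - 4 * b) = {1} :=
    Sel_one j hm hE hS hk hl (by linear_combination (-2) * ea) ed
  obtain ⟨u1, u2⟩ := QASHA.uset parts iparts j hm h1 hS
  obtain ⟨hD, hf⟩ := fin_E j hm hS
  refine ⟨hb0, hd0, ?_, by rw [e1]; exact u1, by rw [e1]; exact u2, e2⟩
  refine fin_of (k := k) (l := l) (by exact_mod_cast hk) (by exact_mod_cast hl) rfl rfl rfl ?_ ?_ hD hf
  · show (a : ℚ) * l ^ 2 = ((pA j m : ℚ) + pB j m) * k ^ 2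
    exact_mod_cast ea
  · show (b : ℚ) * l ^ 4 = ((pA j m : ℚ) * pB j m) * k ^ 4
    exact_mod_cast eb

/-- **type II** -/
theorem main2 (j : Fin 3) {m a b : ℤ} {x : ℚ} (hm : Squarefree m) (hE : ¬ Exc m) (hS : Sys m)
    (hx : x ≠ 0) (ha : (a : ℚ) = (-2 * (pA j m + pB j m) : ℤ) * x ^ 2)
    (hb : (b : ℚ) = ((pA j m - pB j m) ^ 2 : ℤ) * x ^ 4) :
    b ≠ 0 ∧ a ^ 2 - 4 * b ≠ 0 ∧ Finite (Eab a b).toAffine.Point ∧ Sel a b = {1} ∧
      (Sel (-2 * a) (a ^ 2 - 4 * b)).Finite ∧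
      (Sel (-2 * a) (a ^ 2 - 4 * b)).ncard = 2 ^ eJ j m := by
  have hm0 := hm.ne_zero
  have h1 : m ≠ 1 := fun h' => hE (Or.inl h')
  have hA : pA j m ≠ 0 := QASHA.pA_ne hm0
  have hB : pB j m ≠ 0 := QASHA.pB_ne hm0
  have hAB : pA j m ≠ pB j m := QASHA.pAB_ne hm0
  obtain ⟨k, l, hk, hl, hkl, ea, eb⟩ := coord hx ha hb
  have hb0 : b ≠ 0 := by
    rintro rfl
    rw [zero_mul] at eb
    exact mul_ne_zero (pow_ne_zero 2 (sub_ne_zero.2 hAB)) (pow_ne_zero 4 hk) eb.symm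
  have ed : (a ^ 2 - 4 * b) * l ^ 4 = (pA j m * pB j m) * (2 * k) ^ 4 := by
    linear_combination (a * l ^ 2 + -2 * (pA j m + pB j m) * k ^ 2) * ea - 4 * eb
  have h2k : 2 * k ≠ 0 := mul_ne_zero two_ne_zero hk
  have hd0 : a ^ 2 - 4 * b ≠ 0 := by
    intro h
    rw [h, zero_mul] at ed
    exact mul_ne_zero (mul_ne_zero hA hB) (pow_ne_zero 4 h2k) ed.symm
  have e1 := Sel_one j hm hE hS hk hl ea eb
  have e2 := Sel_big (a := -2 * a) (b := a ^ 2 - 4 * b) j hm h2k hl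
    (by linear_combination (-2) * ea) ed fun u hu h => div2 j hm hd0 hkl ea eb hu h
  obtain ⟨u1, u2⟩ := QASHA.uset parts iparts j hm h1 hS
  refine ⟨hb0, hd0, ?_, e1, by rw [e2]; exact u1, by rw [e2]; exact u2⟩
  refine fin_of (W := IAB (pA j m) (pB j m)) (k := k) (l := l) (by exact_mod_cast hk)
    (by exact_mod_cast hl) rfl rfl rfl ?_ ?_ (delta_I hA hB hAB) (fin_I j hm hS)
  · show (a : ℚ) * l ^ 2 = (-2 * ((pA j m : ℚ) + pB j m)) * k ^ 2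
    exact_mod_cast ea
  · show (b : ℚ) * l ^ 4 = ((pA j m : ℚ) - pB j m) ^ 2 * k ^ 4
    exact_mod_cast eb

end Pool.Agent.H743.SQ
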